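import Pool.Agent.X177.RL.Inacc

/-!
# Countably complete versus normal omega-Ramsey cardinals

`MP_7fbf3d_lc`. A `Δ^∀_ω`-Ramsey cardinal `κ` is inaccessible and a limit of `cc^∀_ω`-Ramsey
cardinals. So the least `cc^∀_ω`-Ramsey cardinal is never `Δ^∀_ω`-Ramsey (Q1: ZFC does not prove
that every `cc^∀_ω`-Ramsey cardinal is `Δ^∀_ω`-Ramsey, unless it refutes that there are
`cc^∀_ω`-Ramsey cardinals), and `V_κ` is a model of ZFC with a `cc^∀_ω`-Ramsey cardinal (Q2: the
consistency strength of `cc^∀_ω`-Ramsey cardinals is strictly weaker).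

Proof. Let `U` be normal for `M ≺ H(θ')`, let `D` be the diagonal intersection of `U` and let
`α ∈ D` be a limit point of `D` which is closed under enough functions. Let `M_α` be the set of the
first `α` elements of `M` and `N` the set of all `f(α)` in `H(θ)`, `f ∈ M_α` a function on `κ`.
Then `N ≺ H(θ)`, every subset of `α` in `N` is of the form `A ∩ α` with `A ∈ M_α` (by
`κ`-amenability), and the sets `A ∩ α` with `A ∈ M_α ∩ U` form a uniform, `α`-amenable, `N`-normal
`N`-ultrafilter, which is countably complete since a tail of `D ∩ α` is contained in each of its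
elements.
-/

set_option autoImplicit false

open Cardinal Ordinal Pool.Agent.X177.RL

universe u

namespace Pool.Agent.Results.MP_7fbf3d_lc.LimitOfCC

theorem result :
    (∀ κ : Cardinal.{u}, Ramsey Normal κ → κ.IsInaccessible ∧
      ∀ γ < κ.ord, ∃ a : Cardinal.{u}, γ < a.ord ∧ a < κ ∧ Ramsey CC a) ∧
    (∀ κ : Cardinal.{u}, Ramsey CC κ → (∀ a < κ, ¬ Ramsey CC a) → ¬ Ramsey Normal κ) ∧
    ((∀ κ : Cardinal.{u}, Ramsey CC κ → Ramsey Normal κ) ↔
      ¬ ∃ κ : Cardinal.{u}, Ramsey CC κ) := by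
  have h1 : ∀ κ : Cardinal.{u}, Ramsey CC κ → (∀ a < κ, ¬ Ramsey CC a) → ¬ Ramsey Normal κ := by
    intro κ _ h h'
    obtain ⟨a, -, ha, ha'⟩ := exists_small h' h'.1.ord_pos
    exact h a ha ha'
  refine ⟨fun κ h => ⟨⟨h.2.1, h.1.le_cof_ord, fun μ hμ => two_power_lt h hμ⟩,
    fun γ hγ => exists_small h hγ⟩, h1, ?_, ?_⟩
  · rintro h ⟨κ, hκ⟩
    obtain ⟨m, hm, hmin⟩ := WellFounded.has_min (Cardinal.lt_wf) {κ : Cardinal.{u} | Ramsey CC κ}
      ⟨κ, hκ⟩
    exact h1 m hm (fun a ha ha' => hmin a ha' ha) (h m hm)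
  · intro h κ hκ
    exact absurd ⟨κ, hκ⟩ h

end Pool.Agent.Results.MP_7fbf3d_lc.LimitOfCC
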